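import Mathlib

/-!
The Pell lemma for difference sets with multiplier `-1`: for an odd prime `p` the equation
`z^2 = (2^y)^2 p^(2t) - (2^y)^2 p^(t+r) + 1` with `r ≥ 1` forces `t = r`.
-/

set_option autoImplicit false

namespace Pool.Agent.Helper58.McF

/-- `a^n = x_n + 2 u_n sqrt d` for `a = X + 2 sqrt d`, `4 d = X^2 - 1` -/
def xu (X : ℤ) : ℕ → ℤ × ℤ
  | 0 => (1, 0)
  | n + 1 => (X * (xu X n).1 + (X ^ 2 - 1) * (xu X n).2, (xu X n).1 + X * (xu X n).2)

theorem xu_add (X : ℤ) (m n : ℕ) :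
    (xu X (m + n)).1 = (xu X m).1 * (xu X n).1 + (X ^ 2 - 1) * ((xu X m).2 * (xu X n).2) ∧
    (xu X (m + n)).2 = (xu X m).2 * (xu X n).1 + (xu X m).1 * (xu X n).2 := by
  induction n with
  | zero => simp [xu]
  | succ n ih =>
    obtain ⟨h1, h2⟩ := ih
    rw [← add_assoc, xu]
    simp only [xu, h1, h2]
    constructor <;> ring

theorem norm_xu (X : ℤ) (n : ℕ) : (xu X n).1 ^ 2 - (X ^ 2 - 1) * (xu X n).2 ^ 2 = 1 := by
  induction n with
  | zero => simp [xu]
  | succ n ih =>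
    simp only [xu]
    linear_combination ih

theorem dvd_mul (X : ℤ) (m k : ℕ) : (xu X m).2 ∣ (xu X (m * k)).2 := by
  induction k with
  | zero => simp [xu]
  | succ k ih =>
    rw [Nat.mul_succ, (xu_add X (m * k) m).2]
    exact dvd_add (ih.mul_right _) (Dvd.intro_left _ rfl)

theorem odd_split (X : ℤ) (k : ℕ) : (xu X (2 * k + 1)).2 =
    ((xu X (k + 1)).2 - (xu X k).2) * ((xu X (k + 1)).2 + (xu X k).2) := by
  have h := (xu_add X (k + 1) k).2
  rw [show k + 1 + k = 2 * k + 1 by ring] at h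
  rw [h]
  simp only [xu]
  ring

/-- residues modulo `X + 1` -/
theorem mod_xu (X : ℤ) (n : ℕ) :
    (X + 1) ∣ (xu X n).1 - (-1) ^ n ∧ (X + 1) ∣ (xu X n).2 - (-1) ^ (n + 1) * n := by
  induction n with
  | zero => simp [xu]
  | succ n ih =>
    obtain ⟨⟨a, ha⟩, ⟨b, hb⟩⟩ := ih
    have e1 : (xu X n).1 = (X + 1) * a + (-1) ^ n := by linarith
    have e2 : (xu X n).2 = (X + 1) * b + (-1) ^ (n + 1) * n := by linarith
    constructor
    · rw [xu, e1, e2]
      refine ⟨X * a + (-1) ^ n + (X - 1) * ((X + 1) * b + (-1) ^ (n + 1) * n), ?_⟩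
      ring
    · rw [xu, e1, e2]
      refine ⟨a + X * b + (-1) ^ (n + 1) * n, ?_⟩
      push_cast
      ring

theorem pos_xu {X : ℤ} (hX : 1 ≤ X) (n : ℕ) : 1 ≤ (xu X n).1 ∧ (n : ℤ) ≤ (xu X n).2 := by
  induction n with
  | zero => simp [xu]
  | succ n ih =>
    obtain ⟨h1, h2⟩ := ih
    have h3 : (0 : ℤ) ≤ (xu X n).2 := le_trans (Int.natCast_nonneg n) h2
    have h4 : 0 ≤ X ^ 2 - 1 := by nlinarith
    constructor
    · rw [xu]
      simp only
      have : 0 ≤ (X ^ 2 - 1) * (xu X n).2 := mul_nonneg h4 h3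
      nlinarith
    · rw [xu]
      simp only
      push_cast
      nlinarith

theorem coe_pow {d X : ℤ} (hd : 4 * d = X ^ 2 - 1) (a : Pell.Solution₁ d) (hx : a.x = X)
    (hy : a.y = 2) (n : ℕ) : (a ^ n).x = (xu X n).1 ∧ (a ^ n).y = 2 * (xu X n).2 := by
  induction n with
  | zero => simp [xu]
  | succ n ih =>
    obtain ⟨h1, h2⟩ := ih
    rw [pow_succ, Pell.Solution₁.x_mul, Pell.Solution₁.y_mul, h1, h2, hx, hy, xu]
    constructor
    · simp only
      linear_combination (xu X n).2 * hd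
    · simp only
      ring

/-- every solution of `x^2 - Z (Z-1) W^2 = 1` with `x, W > 0` comes from the fundamental one -/
theorem sol (Z : ℤ) (hZ : 2 ≤ Z) (x W : ℤ) (hx : 0 < x) (hW : 0 ≤ W)
    (h : x ^ 2 - Z * (Z - 1) * W ^ 2 = 1) : ∃ n : ℕ, W = 2 * (xu (2 * Z - 1) n).2 := by
  let a : Pell.Solution₁ (Z * (Z - 1)) := Pell.Solution₁.mk (2 * Z - 1) 2 (by ring)
  have hfund : Pell.IsFundamental a := by
    refine ⟨?_, ?_, ?_⟩
    · change 1 < 2 * Z - 1
      linarith
    · change (0 : ℤ) < 2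
      norm_num
    · intro b hb
      change 2 * Z - 1 ≤ b.x
      by_contra hcon
      rw [not_le] at hcon
      have hprop := b.prop
      have hby : b.y ≠ 0 := Pell.Solution₁.y_ne_zero_of_one_lt_x hb
      have hy1 : 1 ≤ b.y ^ 2 := by
        have := sq_nonneg b.y
        have h0 : b.y ^ 2 ≠ 0 := pow_ne_zero 2 hby
        omega
      by_cases hy2 : b.y ^ 2 = 1
      · rw [hy2] at hprop
        have hlt1 : (Z - 1) ^ 2 < b.x ^ 2 := by nlinarith
        have hlt2 : b.x ^ 2 < Z ^ 2 := by nlinarith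
        have h1 : Z - 1 < b.x := lt_of_pow_lt_pow_left₀ 2 (by linarith) hlt1
        have h2 : b.x < Z := lt_of_pow_lt_pow_left₀ 2 (by linarith) hlt2
        omega
      · have hy4 : 4 ≤ b.y ^ 2 := by
          have h2 : 2 ≤ |b.y| := by
            by_contra hc
            rw [not_le] at hc
            have h3 : |b.y| = 1 := by
              have := abs_pos.2 hby
              omega
            apply hy2
            rw [← sq_abs, h3]
            norm_num
          rw [← sq_abs]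
          nlinarith
        have hlt : b.x ^ 2 < (2 * Z - 1) ^ 2 := by nlinarith
        have hZ2 : 0 ≤ Z * (Z - 1) := by nlinarith
        nlinarith
  obtain ⟨n, hn⟩ := hfund.eq_pow_of_nonneg (a := Pell.Solution₁.mk x W h) hx hW
  refine ⟨n, ?_⟩
  have h1 := (coe_pow (d := Z * (Z - 1)) (X := 2 * Z - 1) (by ring) a rfl rfl n).2
  rw [← hn] at h1
  exact h1

/-- the Pell lemma -/
theorem pell_lemma {p : ℕ} (hp : p.Prime) (hp2 : p ≠ 2) {t r y : ℕ} (hr : 1 ≤ r) {z : ℤ}
    (h : z ^ 2 = (2 ^ y) ^ 2 * (p : ℤ) ^ (2 * t) - (2 ^ y) ^ 2 * (p : ℤ) ^ (t + r) + 1) :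
    t = r := by
  have hp3 : 3 ≤ p := by
    have := hp.two_le
    omega
  have hpZ : (1 : ℤ) < p := by exact_mod_cast hp.one_lt
  have h2y : (0 : ℤ) < (2 ^ y) ^ 2 := by positivity
  rcases lt_trichotomy t r with htr | htr | htr
  · exfalso
    have h1 : (p : ℤ) ^ (2 * t + 1) ≤ (p : ℤ) ^ (t + r) := pow_le_pow_right₀ hpZ.le (by omega)
    have h2 : (p : ℤ) ^ (2 * t + 1) = (p : ℤ) ^ (2 * t) * p := pow_succ _ _
    have h3 : (1 : ℤ) ≤ (p : ℤ) ^ (2 * t) := one_le_pow₀ hpZ.le
    have h4 : (1 : ℤ) ≤ (2 ^ y) ^ 2 := by omega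
    have h5 : 0 ≤ z ^ 2 := sq_nonneg z
    have h6 : 2 ≤ (p : ℤ) ^ (t + r) - (p : ℤ) ^ (2 * t) := by
      have : (3 : ℤ) ≤ p := by exact_mod_cast hp3
      nlinarith
    nlinarith
  · exact htr
  · exfalso
    obtain ⟨s, rfl⟩ := Nat.exists_eq_add_of_lt htr
    set Z : ℤ := (p : ℤ) ^ (s + 1) with hZ
    have hZp : (p : ℤ) ∣ Z := dvd_pow_self _ (Nat.succ_ne_zero s)
    have hZ2 : 2 ≤ Z := by
      have : (p : ℤ) ≤ Z := by
        rw [hZ]
        exact le_self_pow₀ hpZ.le (Nat.succ_ne_zero s)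
      have : (3 : ℤ) ≤ p := by exact_mod_cast hp3
      linarith
    set W : ℤ := 2 ^ y * (p : ℤ) ^ r with hW
    have hWpos : 0 < W := by positivity
    have heq : z ^ 2 - Z * (Z - 1) * W ^ 2 = 1 := by
      rw [h, hZ, hW]
      ring
    have hz0 : z ≠ 0 := by
      rintro rfl
      have : 0 ≤ Z * (Z - 1) * W ^ 2 := by
        have : 0 ≤ Z * (Z - 1) := by nlinarith
        positivity
      linarith
    obtain ⟨n, hn⟩ := sol Z hZ2 |z| W (abs_pos.2 hz0) hWpos.le (by rw [sq_abs]; exact heq)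
    set X : ℤ := 2 * Z - 1 with hX
    have hX1 : 1 ≤ X := by linarith
    have hXZ : X + 1 = 2 * Z := by rw [hX]; ring
    -- p divides n
    have hpn : p ∣ n := by
      have h1 : (p : ℤ) ∣ 2 * (xu X n).2 := by
        rw [← hn, hW]
        exact (dvd_pow_self _ (by omega)).mul_left _
      have hcop : IsCoprime (p : ℤ) 2 := by
        rw [Int.isCoprime_iff_gcd_eq_one]
        have : Nat.Coprime p 2 := (Nat.coprime_primes hp Nat.prime_two).2 hp2
        exact_mod_cast this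
      have h2 : (p : ℤ) ∣ (xu X n).2 := hcop.dvd_of_dvd_mul_left h1
      have h3 : (p : ℤ) ∣ (xu X n).2 - (-1) ^ (n + 1) * n := by
        refine dvd_trans ?_ (mod_xu X n).2
        rw [hXZ]
        exact hZp.mul_left 2
      have h4 : (p : ℤ) ∣ (-1) ^ (n + 1) * n := by
        have := dvd_sub h2 h3
        simpa using this
      have h5 : (p : ℤ) ∣ n := by
        rcases neg_one_pow_eq_or ℤ (n + 1) with h6 | h6
        · rw [h6, one_mul] at h4
          exact h4
        · rw [h6, neg_one_mul, dvd_neg] at h4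
          exact h4
      exact_mod_cast h5
    obtain ⟨k, rfl⟩ := hpn
    have hodd : Odd p := hp.odd_of_ne_two hp2
    obtain ⟨j, hj⟩ := hodd
    have hj1 : 1 ≤ j := by omega
    set g : ℤ := (xu X (j + 1)).2 + (xu X j).2 with hg
    have hgp : g ∣ (xu X p).2 := by
      rw [hj, odd_split]
      exact Dvd.intro_left _ rfl
    have hgW : g ∣ W := by
      rw [hn]
      exact (hgp.trans (dvd_mul X p k)).mul_left 2
    -- g is congruent to ±1 modulo 2 Z
    have hgmod : (2 * Z) ∣ g - (-1) ^ j := by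
      rw [← hXZ]
      have h1 := (mod_xu X (j + 1)).2
      have h2 := (mod_xu X j).2
      have h3 := dvd_add h1 h2
      have e : (xu X (j + 1)).2 - (-1) ^ (j + 1 + 1) * ((j + 1 : ℕ) : ℤ) +
          ((xu X j).2 - (-1) ^ (j + 1) * (j : ℤ)) = g - (-1) ^ j := by
        rw [hg]
        push_cast
        ring
      rwa [e] at h3
    have hcop2 : IsCoprime g (2 * Z) := by
      obtain ⟨c, hc⟩ := hgmod
      refine ⟨(-1) ^ j, -((-1) ^ j * c), ?_⟩
      have h1 : ((-1 : ℤ) ^ j) * (-1) ^ j = 1 := by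
        rw [← mul_pow]
        norm_num
      linear_combination (-1) ^ j * hc + h1
    have hcopW : IsCoprime g W := by
      rw [hW]
      apply IsCoprime.mul_right
      · exact (hcop2.of_isCoprime_of_dvd_right (Dvd.intro _ rfl)).pow_right
      · exact (hcop2.of_isCoprime_of_dvd_right (hZp.mul_left 2)).pow_right
    have hunit : IsUnit g := hcopW.isUnit_of_dvd' dvd_rfl hgW
    have hg2 : 2 ≤ g := by
      have h1 := (pos_xu hX1 (j + 1)).2
      have h2 := (pos_xu hX1 j).2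
      rw [hg]
      push_cast at h1
      have : (1 : ℤ) ≤ j := by exact_mod_cast hj1
      linarith
    rw [Int.isUnit_iff] at hunit
    omega

end Pool.Agent.Helper58.McF
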